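import Pool.Agent.E8helper3.PT.Stm

set_option autoImplicit false

namespace Pool.Agent.E8helper63.PT
open Polynomial Module Pool.Agent.E8helper3.PT

/-- `ev h` as a linear map -/
noncomputable def evL (h : ℕ → ℚ) : ℚ[X] →ₗ[ℚ] ℚ where
  toFun := ev h
  map_add' p q := by
    unfold ev
    exact Polynomial.sum_add_index p q _ (fun i => by simp) (fun i a b => by ring)
  map_smul' c p := by
    unfold ev
    rw [Polynomial.sum_smul_index' _ _ _ (fun i => by simp), RingHom.id_apply, smul_eq_mul,
      Polynomial.sum_def, Polynomial.sum_def, Finset.mul_sum]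
    refine Finset.sum_congr rfl fun i _ => ?_
    rw [smul_eq_mul]; ring

lemma evL_monomial (h : ℕ → ℚ) (k : ℕ) (c : ℚ) : evL h (monomial k c) = c * h k := by
  show (monomial k c).sum (fun i a => a * h i) = _
  rw [Polynomial.sum_monomial_index _ _ (by simp)]

lemma evL_mul (h : ℕ → ℚ) {n : ℕ} (p q : ℚ[X]) (hp : p.natDegree < n) (hq : q.natDegree < n) :
    evL h (p * q) = ∑ a : Fin n, ∑ b : Fin n, p.coeff a * h (a + b) * q.coeff b := by
  conv_lhs => rw [Polynomial.as_sum_range' p n hp, Polynomial.as_sum_range' q n hq]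
  rw [Finset.sum_mul_sum, map_sum, Finset.sum_range]
  refine Finset.sum_congr rfl fun a _ => ?_
  rw [map_sum, Finset.sum_range]
  refine Finset.sum_congr rfl fun b _ => ?_
  rw [Polynomial.monomial_mul_monomial, evL_monomial]
  ring

theorem t_GR : S_GR := by
  intro n d h t hd hdn h0 h1
  let p : Fin d → ℚ[X] := fun i => (X + C t) ^ (n - 1 - (i : ℕ))
  let P : Matrix (Fin n) (Fin d) ℚ := Matrix.of fun a i => (p i).coeff a
  let H : Matrix (Fin n) (Fin n) ℚ := Matrix.of fun i j : Fin n => h (i + j)
  let B : Matrix (Fin d) (Fin d) ℚ := P.transpose * H * P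
  have hdeg : ∀ i, (p i).natDegree < n := by
    intro i
    have : (p i).natDegree = n - 1 - (i : ℕ) := by
      show ((X + C t) ^ (n - 1 - (i : ℕ))).natDegree = _
      rw [Polynomial.natDegree_pow, Polynomial.natDegree_X_add_C, mul_one]
    rw [this]
    omega
  have hB : ∀ i j, B i j = ev h ((X + C t) ^ (2 * n - 2 - ((i : ℕ) + j))) := by
    intro i j
    have hi := i.2
    have hj := j.2
    have e1 : p i * p j = (X + C t) ^ (2 * n - 2 - ((i : ℕ) + j)) := by
      show (X + C t) ^ (n - 1 - (i : ℕ)) * (X + C t) ^ (n - 1 - (j : ℕ)) = _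
      rw [← pow_add]
      congr 1
      omega
    have e2 : B i j = ∑ b : Fin n, (∑ a : Fin n, (p i).coeff a * h (a + b)) * (p j).coeff b := by
      show (P.transpose * H * P) i j = _
      rw [Matrix.mul_apply]
      refine Finset.sum_congr rfl fun b _ => ?_
      rw [Matrix.mul_apply]
      rfl
    rw [e2, ← e1]
    show _ = evL h (p i * p j)
    rw [evL_mul h _ _ (hdeg i) (hdeg j), Finset.sum_comm]
    refine Finset.sum_congr rfl fun b _ => ?_
    rw [Finset.sum_mul]
  let B' : Matrix (Fin d) (Fin d) ℚ := B.submatrix (Equiv.refl _) Fin.revPerm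
  have hB' : ∀ i j, B' i j = B i (Fin.rev j) := fun i j => rfl
  have htri : B'.BlockTriangular OrderDual.toDual := by
    intro i j hij
    have hij' : i < j := hij
    rw [hB', hB]
    apply h0
    rw [Fin.val_rev]
    have hi := i.2
    have hj := j.2
    have : (i : ℕ) < j := hij'
    omega
  have hdet : B'.det ≠ 0 := by
    rw [Matrix.det_of_isLowerTriangular _ htri, Finset.prod_ne_zero_iff]
    intro i _
    rw [hB', hB]
    have : (i : ℕ) + (Fin.rev i : Fin d) = d - 1 := by
      rw [Fin.val_rev]
      have hi := i.2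
      omega
    rw [this]
    exact h1
  have hrank : B.rank = d := by
    have hr : B'.rank = d := by
      have := Matrix.rank_of_isUnit B' ((Matrix.isUnit_iff_isUnit_det _).mpr (isUnit_iff_ne_zero.mpr hdet))
      simpa using this
    exact ((Matrix.rank_submatrix B (Equiv.refl _) Fin.revPerm).symm).trans hr
  calc d = B.rank := hrank.symm
    _ ≤ (P.transpose * H).rank := Matrix.rank_mul_le_left _ _
    _ ≤ H.rank := Matrix.rank_mul_le_right _ _

end Pool.Agent.E8helper63.PT
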